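import Pool.Agent.Helper85.IA.St

/-!
# Project IA part N (MP_953b28_co): module KK2, joint mean of the cover indicators kA and kB
-/

set_option autoImplicit false

namespace Pool.Agent.Helper95.IA85

open Finset Pool.Agent.Helper93.IA Pool.Agent.Helper85.IA

section

variable {α β γ : Type} [Fintype α] [Fintype β] [Fintype γ] [DecidableEq α] [DecidableEq β]
  [DecidableEq γ]

/-- The bound of one term. -/
private def bd (a : α) (b : β) (c c' : γ) (a' : α) (σ : α × β → Option γ) : ℝ :=
  if a' = a then (if c' = c then (if σ (a, b) = some c then 1 else 0) else 0)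
  else (if σ (a, b) = some c' ∧ σ (a', b) = some c then 1 else 0)

private theorem bd_le (a : α) (b : β) (c c' : γ) (a' : α) (σ : α × β → Option γ) :
    us σ a b c' * us σ a' b c ≤ bd a b c c' a' σ := by
  unfold us bd
  by_cases h1 : Us σ a b c'
  · by_cases h2 : Us σ a' b c
    · rw [if_pos h1, if_pos h2, mul_one]
      by_cases ha : a' = a
      · subst ha
        have hc : c' = c := Option.some.inj (h1.1.symm.trans h2.1)
        rw [if_pos rfl, if_pos hc, if_pos h2.1]
      · rw [if_neg ha, if_pos ⟨h1.1, h2.1⟩]
    · rw [if_neg h2, mul_zero]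
      split_ifs <;> norm_num
  · rw [if_neg h1, zero_mul]
    split_ifs <;> norm_num

private theorem kk_sum (a : α) (b : β) (c : γ) (σ : α × β → Option γ) :
    kA σ a b * kB σ b c ≤ ∑ c', ∑ a', bd a b c c' a' σ := by
  unfold kA kB
  rw [Finset.sum_mul_sum]
  exact Finset.sum_le_sum fun c' _ => Finset.sum_le_sum fun a' _ => bd_le a b c c' a' σ

end

theorem hKK2 : StEXJ → StKK2 := by
  intro hEXJ α β γ _ _ _ _ _ _ ε μ y hε hy a b c
  have hJ := hEXJ (α × β) (fun _ => Option γ) (wt y) (wt_sum y)
  have e1 : E y (fun σ => kA σ a b * kB σ b c) ≤ ∑ c', ∑ a', E y (bd a b c c' a') := by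
    unfold E
    refine (Ex_mono (wt_nonneg hy) (kk_sum a b c)).trans (le_of_eq ?_)
    rw [Ex_sum]
    exact Finset.sum_congr rfl fun c' _ => Ex_sum _ _
  have e2 : ∀ c' a', E y (bd a b c c' a')
      ≤ (if a' = a then (if c' = c then y a b c else 0) else 0) + y a b c' * y a' b c := by
    intro c' a'
    have hn : 0 ≤ y a b c' * y a' b c := mul_nonneg (hy.nn _ _ _) (hy.nn _ _ _)
    by_cases ha : a' = a
    · by_cases hc : c' = c
      · rw [if_pos ha, if_pos hc]
        have h1 : bd a b c c' a' = fun σ => if σ (a, b) = some c then 1 else 0 := by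
          funext σ
          unfold bd
          rw [if_pos ha, if_pos hc]
        have h2 : E y (bd a b c c' a') = y a b c := by
          rw [h1]
          exact hJ.1 (a, b) (some c)
        rw [h2]
        linarith
      · rw [if_pos ha, if_neg hc]
        have h1 : bd a b c c' a' = fun σ => (0 : ℝ) := by
          funext σ
          unfold bd
          rw [if_pos ha, if_neg hc]
        have h2 : E y (bd a b c c' a') = 0 := by
          rw [h1]
          exact Ex_const (wt_sum y) 0
        rw [h2]
        linarith
    · rw [if_neg ha]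
      have h1 : bd a b c c' a'
          = fun σ => if σ (a, b) = some c' ∧ σ (a', b) = some c then 1 else 0 := by
        funext σ
        unfold bd
        rw [if_neg ha]
      have hne : ((a, b) : α × β) ≠ (a', b) := by
        intro h
        exact ha (Prod.ext_iff.1 h).1.symm
      have h2 : E y (bd a b c c' a') = y a b c' * y a' b c := by
        rw [h1]
        exact hJ.2 (a, b) (a', b) (some c') (some c) hne
      rw [h2]
      linarith
  refine e1.trans ?_
  have e3 : ∑ c', ∑ a', E y (bd a b c c' a')
      ≤ ∑ c', ∑ a', ((if a' = a then (if c' = c then y a b c else 0) else 0)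
        + y a b c' * y a' b c) :=
    Finset.sum_le_sum fun c' _ => Finset.sum_le_sum fun a' _ => e2 c' a'
  refine e3.trans ?_
  have e4 : ∑ c', ∑ a', ((if a' = a then (if c' = c then y a b c else 0) else 0)
        + y a b c' * y a' b c) = y a b c + (∑ c', y a b c') * ∑ a', y a' b c := by
    rw [Finset.sum_mul_sum]
    simp only [Finset.sum_add_distrib]
    congr 1
    simp
  rw [e4]
  have h1 := hy.sA a b
  have h2 := hy.sB b c
  have h3 : 0 ≤ ∑ c', y a b c' := Finset.sum_nonneg fun i _ => hy.nn _ _ _
  have h4 : 0 ≤ ∑ a', y a' b c := Finset.sum_nonneg fun i _ => hy.nn _ _ _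
  nlinarith

end Pool.Agent.Helper95.IA85
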